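import Mathlib

set_option autoImplicit false

open Set

namespace Pool.Agent.Results.MP_902647_gt.FewerVertices

variable {E F : Type*}

/-- A polytope: a nonempty compact convex set with finitely many extreme points. -/
def IsPolytope [NormedAddCommGroup E] [NormedSpace ℝ E] (C : Set E) : Prop :=
  C.Nonempty ∧ IsCompact C ∧ Convex ℝ C ∧ (C.extremePoints ℝ).Finite

/-- A simplex: the convex hull of a nonempty finite affinely independent family of points. -/
def IsSimplex [AddCommGroup E] [Module ℝ E] (T : Set E) : Prop :=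
  ∃ (k : ℕ) (p : Fin (k + 1) → E), AffineIndependent ℝ p ∧ T = convexHull ℝ (range p)

/-- The convex-form space `Ω C`: the set of all affine maps `C → [0, 1]`, as a subset of the real
vector space of all functions `C → ℝ`. -/
def Omega [AddCommGroup E] [Module ℝ E] (C : Set E) : Set (C → ℝ) :=
  {w | (∀ x, 0 ≤ w x ∧ w x ≤ 1) ∧
    ∀ (a b c : C) (l : ℝ), 0 ≤ l → l ≤ 1 → (c : E) = l • (a : E) + (1 - l) • (b : E) →
      w c = l * w a + (1 - l) * w b}

/-- `IsPartialOntoAffine X Y D f`: the map `f`, restricted to `D`, is a partial, onto, affine map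
from `X` to `Y` with domain `D`. -/
structure IsPartialOntoAffine [AddCommGroup E] [Module ℝ E] [AddCommGroup F] [Module ℝ F]
    (X : Set E) (Y : Set F) (D : Set E) (f : E → F) : Prop where
  subset : D ⊆ X
  convex : Convex ℝ D
  onto : f '' D = Y
  affine : ∀ a ∈ D, ∀ b ∈ D, ∀ l : ℝ, 0 ≤ l → l ≤ 1 →
    f (l • a + (1 - l) • b) = l • f a + (1 - l) • f b

/-- `IsSimplicialRefinement C T Df f Dg g`: `(T, Ω T, f, g)` is a simplicial refinement of the
statistical model `(C, Ω C)`; here `f` has domain `Df` and `g` has domain `Dg`. -/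
structure IsSimplicialRefinement [AddCommGroup E] [Module ℝ E] [AddCommGroup F] [Module ℝ F]
    (C : Set E) (T : Set F) (Df : Set F) (f : F → E) (Dg : Set (T → ℝ))
    (g : (T → ℝ) → (C → ℝ)) : Prop where
  simplex : IsSimplex T
  f_partial : IsPartialOntoAffine T C Df f
  g_partial : IsPartialOntoAffine (Omega T) (Omega C) Dg g
  pairing : ∀ (a : T) (c : C), (a : F) ∈ Df → f a = c → ∀ w ∈ Dg, g w c = w a

/-! ### Extreme points -/

/-- A point of `V` at which a linear form is strictly larger than at all other points of `V` is an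
extreme point of the convex hull of `V`. -/
theorem mem_extremePoints_of_linear [AddCommGroup E] [Module ℝ E] (V : Set E) (v : E) (hv : v ∈ V)
    (l : E →ₗ[ℝ] ℝ) (hl : ∀ w ∈ V, w ≠ v → l w < l v) :
    v ∈ (convexHull ℝ V).extremePoints ℝ := by
  have hS : Convex ℝ {x : E | l x < l v ∨ x = v} := by
    intro x hx y hy a b ha hb hab
    rcases hx with hx | hx <;> rcases hy with hy | hy
    · left
      rcases eq_or_lt_of_le ha with ha0 | ha0
      · have hb1 : b = 1 := by linarith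
        subst hb1
        rw [← ha0]
        simpa using hy
      · have h1 : a * l x < a * l v := mul_lt_mul_of_pos_left hx ha0
        have h2 : b * l y ≤ b * l v := mul_le_mul_of_nonneg_left hy.le hb
        have h3 : l (a • x + b • y) = a * l x + b * l y := by simp
        rw [h3]
        have h4 : l v = a * l v + b * l v := by rw [← add_mul, hab, one_mul]
        linarith
    · rcases eq_or_lt_of_le ha with ha0 | ha0
      · right
        have hb1 : b = 1 := by linarith
        subst hb1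
        rw [← ha0, hy]
        simp
      · left
        have h1 : a * l x < a * l v := mul_lt_mul_of_pos_left hx ha0
        have h3 : l (a • x + b • y) = a * l x + b * l y := by simp
        rw [h3, hy]
        have h4 : l v = a * l v + b * l v := by rw [← add_mul, hab, one_mul]
        linarith
    · rcases eq_or_lt_of_le hb with hb0 | hb0
      · right
        have ha1 : a = 1 := by linarith
        subst ha1
        rw [← hb0, hx]
        simp
      · left
        have h1 : b * l y < b * l v := mul_lt_mul_of_pos_left hy hb0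
        have h3 : l (a • x + b • y) = a * l x + b * l y := by simp
        rw [h3, hx]
        have h4 : l v = a * l v + b * l v := by rw [← add_mul, hab, one_mul]
        linarith
    · right
      rw [hx, hy, ← add_smul, hab, one_smul]
  have hsub : convexHull ℝ V ⊆ {x : E | l x < l v ∨ x = v} := by
    refine convexHull_min ?_ hS
    intro w hw
    by_cases h : w = v
    · exact Or.inr h
    · exact Or.inl (hl w hw h)
  rw [mem_extremePoints]
  refine ⟨subset_convexHull ℝ V hv, ?_⟩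
  intro x hx y hy hxy
  obtain ⟨a, b, ha, hb, hab, hxy⟩ := hxy
  have h3 : l v = a * l x + b * l y := by rw [← hxy]; simp
  have h4 : l v = a * l v + b * l v := by rw [← add_mul, hab, one_mul]
  rcases hsub hx with h1 | h1
  · exfalso
    have h5 : a * l x < a * l v := mul_lt_mul_of_pos_left h1 ha
    rcases hsub hy with h2 | h2
    · have h6 : b * l y < b * l v := mul_lt_mul_of_pos_left h2 hb
      linarith
    · rw [h2] at h3
      linarith
  · rcases hsub hy with h2 | h2
    · exfalso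
      have h6 : b * l y < b * l v := mul_lt_mul_of_pos_left h2 hb
      rw [h1] at h3
      linarith
    · exact ⟨h1, h2⟩

/-! ### The simplex `T` -/

/-- The standard simplex with `8` vertices. -/
def T : Set (Fin 8 → ℝ) := stdSimplex ℝ (Fin 8)

theorem T_eq : T = convexHull ℝ (range fun i : Fin 8 => (Pi.single i 1 : Fin 8 → ℝ)) :=
  (convexHull_rangle_single_eq_stdSimplex (R := ℝ) (ι := Fin 8)).symm

theorem T_simplex : IsSimplex T := by
  refine ⟨7, fun i => Pi.single i 1, ?_, T_eq⟩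
  have h := (Pi.basisFun ℝ (Fin 8)).linearIndependent.affineIndependent
  have h2 : (Pi.basisFun ℝ (Fin 8) : Fin 8 → (Fin 8 → ℝ)) = fun i => Pi.single i 1 := by
    funext i
    simp [Pi.basisFun_apply]
  rw [h2] at h
  exact h

theorem T_extreme : T.extremePoints ℝ = range fun i : Fin 8 => (Pi.single i 1 : Fin 8 → ℝ) := by
  rw [T_eq]
  apply Subset.antisymm extremePoints_convexHull_subset
  rintro _ ⟨i, rfl⟩
  refine mem_extremePoints_of_linear _ _ ⟨i, rfl⟩ (LinearMap.proj i) ?_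
  rintro _ ⟨j, rfl⟩ hj
  have hij : i ≠ j := by
    rintro rfl
    exact hj rfl
  simp [hij]

theorem T_ncard : (T.extremePoints ℝ).ncard = 8 := by
  rw [T_extreme, ← image_univ, ncard_image_of_injective]
  · simp
  · intro i j hij
    by_contra h
    have h2 := congrFun hij i
    simp [h] at h2

/-! ### The polygon `C` -/

/-- The twelve vertices of the polygon `C`. -/
def v : Fin 12 → ℝ × ℝ :=
  ![(3, 3), (3, -6), (-6, 3), (-3, -3), (-3, 6), (6, -3),
    (5, 0), (0, 5), (5, -5), (-5, 0), (0, -5), (-5, 5)]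

/-- The polygon `C`. -/
def C : Set (ℝ × ℝ) := convexHull ℝ (range v)

theorem v_mem (i : Fin 12) : v i ∈ C := subset_convexHull ℝ _ ⟨i, rfl⟩

/-- Twelve linear forms, the `i`-th of which is maximised over `range v` exactly at `v i`. -/
def w : Fin 12 → ℝ × ℝ :=
  ![(1, 1), (0, -1), (-1, 0), (-1, -1), (0, 1), (1, 0),
    (2, 1), (1, 2), (1, -1), (-2, -1), (-1, -2), (-1, 1)]

theorem w_lt (i j : Fin 12) (h : i ≠ j) :
    (w i).1 * (v j).1 + (w i).2 * (v j).2 < (w i).1 * (v i).1 + (w i).2 * (v i).2 := by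
  fin_cases i <;> fin_cases j <;> first | exact absurd rfl h | (simp [v, w]; try norm_num)

/-- The linear form with coefficients `w i`. -/
def form (i : Fin 12) : (ℝ × ℝ) →ₗ[ℝ] ℝ :=
  (w i).1 • LinearMap.fst ℝ ℝ ℝ + (w i).2 • LinearMap.snd ℝ ℝ ℝ

theorem form_apply (i : Fin 12) (x : ℝ × ℝ) : form i x = (w i).1 * x.1 + (w i).2 * x.2 := by
  simp [form]

theorem C_extreme : C.extremePoints ℝ = range v := by
  apply Subset.antisymm extremePoints_convexHull_subset
  rintro _ ⟨i, rfl⟩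
  refine mem_extremePoints_of_linear _ _ ⟨i, rfl⟩ (form i) ?_
  rintro _ ⟨j, rfl⟩ hj
  rw [form_apply, form_apply]
  exact w_lt i j (fun h => hj (by rw [h]))

theorem v_injective : Function.Injective v := by
  intro i j hij
  by_contra h
  have h1 := w_lt i j h
  rw [hij] at h1
  exact lt_irrefl _ h1

theorem C_ncard : (C.extremePoints ℝ).ncard = 12 := by
  rw [C_extreme, ← image_univ, ncard_image_of_injective _ v_injective]
  simp

theorem C_convex : Convex ℝ C := convex_convexHull ℝ _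

theorem C_polytope : IsPolytope C := by
  refine ⟨⟨v 0, v_mem 0⟩, (finite_range v).isCompact_convexHull ℝ, C_convex, ?_⟩
  rw [C_extreme]
  exact finite_range v

theorem C_not_simplex : ¬ IsSimplex C := by
  rintro ⟨k, p, hp, hC⟩
  have h0 : Module.finrank ℝ (vectorSpan ℝ (range p)) ≤ Module.finrank ℝ (ℝ × ℝ) :=
    Submodule.finrank_le _
  have h1 : Fintype.card (Fin (k + 1)) ≤ Module.finrank ℝ (ℝ × ℝ) + 1 :=
    hp.card_le_finrank_succ.trans (Nat.add_le_add_right h0 1)
  have h2 : (C.extremePoints ℝ).ncard ≤ k + 1 := by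
    have h3 : C.extremePoints ℝ ⊆ range p := by
      rw [hC]
      exact extremePoints_convexHull_subset
    have h4 := ncard_le_ncard h3 (finite_range p)
    have h5 : (range p).ncard ≤ k + 1 := by
      rw [← image_univ]
      refine (ncard_image_le (toFinite _)).trans ?_
      simp
    exact h4.trans h5
  rw [C_ncard] at h2
  simp at h1
  omega

/-! ### Affine functions on `C` -/

/-- The extension of a function on `C` by zero. -/
noncomputable def ext0 (o : C → ℝ) (x : ℝ × ℝ) : ℝ := by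
  classical exact if h : x ∈ C then o ⟨x, h⟩ else 0

theorem ext0_eq (o : C → ℝ) (x : C) : ext0 o x = o x := by
  simp [ext0]

theorem ext0_affine (o : C → ℝ) (ho : o ∈ Omega C) (a b : ℝ × ℝ) (ha : a ∈ C) (hb : b ∈ C)
    (l : ℝ) (h0 : 0 ≤ l) (h1 : l ≤ 1) (c : ℝ × ℝ) (hc : c = l • a + (1 - l) • b) :
    ext0 o c = l * ext0 o a + (1 - l) * ext0 o b := by
  have hcC : c ∈ C := by
    rw [hc]
    exact C_convex ha hb h0 (by linarith) (by ring)
  have h := ho.2 ⟨a, ha⟩ ⟨b, hb⟩ ⟨c, hcC⟩ l h0 h1 hc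
  have e1 := ext0_eq o ⟨a, ha⟩
  have e2 := ext0_eq o ⟨b, hb⟩
  have e3 := ext0_eq o ⟨c, hcC⟩
  simp only at e1 e2 e3
  rw [e1, e2, e3, h]

theorem mem_xaxis (s : ℝ) (h1 : -5 ≤ s) (h2 : s ≤ 5) : ((s, 0) : ℝ × ℝ) ∈ C := by
  have h6 := v_mem 6
  have h9 := v_mem 9
  have h := C_convex h6 h9 (a := (s + 5) / 10) (b := (5 - s) / 10) (by linarith) (by linarith)
    (by ring)
  have e : ((s + 5) / 10) • v 6 + ((5 - s) / 10) • v 9 = ((s, 0) : ℝ × ℝ) := by
    ext <;> (simp [v]; try ring)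
  rwa [e] at h

theorem mem_yaxis (s : ℝ) (h1 : -5 ≤ s) (h2 : s ≤ 5) : ((0, s) : ℝ × ℝ) ∈ C := by
  have h6 := v_mem 7
  have h9 := v_mem 10
  have h := C_convex h6 h9 (a := (s + 5) / 10) (b := (5 - s) / 10) (by linarith) (by linarith)
    (by ring)
  have e : ((s + 5) / 10) • v 7 + ((5 - s) / 10) • v 10 = ((0, s) : ℝ × ℝ) := by
    ext <;> (simp [v]; try ring)
  rwa [e] at h

theorem ext0_xaxis (o : C → ℝ) (ho : o ∈ Omega C) (s : ℝ) (h1 : -5 ≤ s) (h2 : s ≤ 5) :
    ext0 o (s, 0) = (s + 5) / 10 * ext0 o (5, 0) + (5 - s) / 10 * ext0 o (-5, 0) := by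
  have h := ext0_affine o ho (5, 0) (-5, 0) (mem_xaxis 5 (by norm_num) (by norm_num))
    (mem_xaxis (-5) (by norm_num) (by norm_num)) ((s + 5) / 10) (by linarith) (by linarith) (s, 0)
    (by ext <;> (simp; try ring))
  rw [h]
  ring

theorem ext0_yaxis (o : C → ℝ) (ho : o ∈ Omega C) (s : ℝ) (h1 : -5 ≤ s) (h2 : s ≤ 5) :
    ext0 o (0, s) = (s + 5) / 10 * ext0 o (0, 5) + (5 - s) / 10 * ext0 o (0, -5) := by
  have h := ext0_affine o ho (0, 5) (0, -5) (mem_yaxis 5 (by norm_num) (by norm_num))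
    (mem_yaxis (-5) (by norm_num) (by norm_num)) ((s + 5) / 10) (by linarith) (by linarith) (0, s)
    (by ext <;> (simp; try ring))
  rw [h]
  ring

theorem C_box (x : ℝ × ℝ) (hx : x ∈ C) : -6 ≤ x.1 ∧ x.1 ≤ 6 ∧ -6 ≤ x.2 ∧ x.2 ≤ 6 := by
  have hK : Convex ℝ {x : ℝ × ℝ | -6 ≤ x.1 ∧ x.1 ≤ 6 ∧ -6 ≤ x.2 ∧ x.2 ≤ 6} := by
    intro x hx y hy a b ha hb hab
    obtain ⟨h1, h2, h3, h4⟩ := hx
    obtain ⟨k1, k2, k3, k4⟩ := hy
    simp only [Set.mem_ofPred_eq, Prod.fst_add, Prod.smul_fst, smul_eq_mul, Prod.snd_add, Prod.smul_snd]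
    have hb' : b = 1 - a := by linarith
    subst hb'
    refine ⟨?_, ?_, ?_, ?_⟩ <;> nlinarith
  have h : C ⊆ {x : ℝ × ℝ | -6 ≤ x.1 ∧ x.1 ≤ 6 ∧ -6 ≤ x.2 ∧ x.2 ≤ 6} := by
    refine convexHull_min ?_ hK
    rintro _ ⟨i, rfl⟩
    fin_cases i <;> (simp [v]; try norm_num)
  exact h hx

/-- Every affine function on `C` is the restriction of an affine function on the plane. -/
theorem ext0_formula (o : C → ℝ) (ho : o ∈ Omega C) :
    ∃ b p q : ℝ, ∀ x ∈ C, ext0 o x = b + p * x.1 + q * x.2 := by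
  refine ⟨ext0 o (0, 0), (ext0 o (5, 0) - ext0 o (-5, 0)) / 10,
    (ext0 o (0, 5) - ext0 o (0, -5)) / 10, ?_⟩
  intro x hx
  obtain ⟨h1, h2, h3, h4⟩ := C_box x hx
  have hz : ((0, 0) : ℝ × ℝ) ∈ C := mem_xaxis 0 (by norm_num) (by norm_num)
  have a1 := ext0_affine o ho x (0, 0) hx hz (1 / 4) (by norm_num) (by norm_num)
    (x.1 / 4, x.2 / 4) (by ext <;> (simp; try ring))
  have a2 := ext0_affine o ho (x.1 / 2, 0) (0, x.2 / 2) (mem_xaxis _ (by linarith) (by linarith))
    (mem_yaxis _ (by linarith) (by linarith)) (1 / 2) (by norm_num) (by norm_num)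
    (x.1 / 4, x.2 / 4) (by ext <;> (simp; try ring))
  have a3 := ext0_xaxis o ho (x.1 / 2) (by linarith) (by linarith)
  have a4 := ext0_yaxis o ho (x.2 / 2) (by linarith) (by linarith)
  have a5 := ext0_xaxis o ho 0 (by norm_num) (by norm_num)
  have a6 := ext0_yaxis o ho 0 (by norm_num) (by norm_num)
  rw [a3, a4] at a2
  linarith

/-! ### The refinement -/

/-- Twelve points of the simplex `T`, lying over the twelve vertices of `C`. Coordinates `0, 1, 2, 3`
are the positive parts and coordinates `4, 5, 6, 7` the negative parts of a vector in `ℝ ^ 4`. -/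
noncomputable def A : Fin 12 → (Fin 8 → ℝ) :=
  ![![0, 0, 0, 0, 0, 0, 9 / 10, 1 / 10], ![0, 0, 0, 0, 0, 9 / 10, 0, 1 / 10],
    ![0, 0, 0, 0, 9 / 10, 0, 0, 1 / 10], ![0, 0, 9 / 10, 1 / 10, 0, 0, 0, 0],
    ![0, 9 / 10, 0, 1 / 10, 0, 0, 0, 0], ![9 / 10, 0, 0, 1 / 10, 0, 0, 0, 0],
    ![1 / 2, 0, 0, 0, 0, 0, 1 / 2, 0], ![0, 1 / 2, 0, 0, 0, 0, 1 / 2, 0],
    ![1 / 2, 0, 0, 0, 0, 1 / 2, 0, 0], ![0, 0, 1 / 2, 0, 1 / 2, 0, 0, 0],
    ![0, 0, 1 / 2, 0, 0, 1 / 2, 0, 0], ![0, 1 / 2, 0, 0, 1 / 2, 0, 0, 0]]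

/-- The linear map `f`. -/
noncomputable def f (a : Fin 8 → ℝ) : ℝ × ℝ :=
  (10 / 3 * (2 * (a 0 - a 4) - (a 1 - a 5) - (a 2 - a 6)),
    10 / 3 * (2 * (a 1 - a 5) - (a 0 - a 4) - (a 2 - a 6)))

theorem f_A (i : Fin 12) : f (A i) = v i := by
  fin_cases i <;> (simp [f, A, v]; try norm_num)

theorem A_mem (i : Fin 12) : A i ∈ T := by
  unfold T stdSimplex
  fin_cases i <;> (refine ⟨fun j => ?_, ?_⟩ <;> [(fin_cases j <;> (simp [A]; try norm_num)); (simp [A, Fin.sum_univ_succ]; try norm_num)])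

theorem f_comb (a b : Fin 8 → ℝ) (s t : ℝ) : f (s • a + t • b) = s • f a + t • f b := by
  ext <;> (simp [f]; ring)

/-- The domain of `f`. -/
noncomputable def Df : Set (Fin 8 → ℝ) := convexHull ℝ (range A)

theorem Df_sub : Df ⊆ T := by
  refine convexHull_min ?_ (convex_stdSimplex ℝ (Fin 8))
  rintro _ ⟨i, rfl⟩
  exact A_mem i

theorem f_linear : IsLinearMap ℝ f where
  map_add a b := by
    have h := f_comb a b 1 1
    simpa using h
  map_smul c a := by
    have h := f_comb a 0 c 0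
    simpa using h

theorem f_image : f '' Df = C := by
  unfold Df C
  rw [f_linear.image_convexHull]
  congr 1
  ext x
  constructor
  · rintro ⟨_, ⟨i, rfl⟩, rfl⟩
    exact ⟨i, (f_A i).symm⟩
  · rintro ⟨i, rfl⟩
    exact ⟨A i, ⟨i, rfl⟩, f_A i⟩

/-- For every affine `o : C → [0, 1]` there is an affine `e : T → [0, 1]` with `e a = o (f a)` on the
domain of `f`. -/
theorem exists_lift (o : C → ℝ) (ho : o ∈ Omega C) :
    ∃ e ∈ Omega T, ∀ (a : T) (c : C), (a : Fin 8 → ℝ) ∈ Df → f a = c → o c = e a := by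
  obtain ⟨b, p, q, hbpq⟩ := ext0_formula o ho
  -- values at the vertices
  have hval : ∀ i : Fin 12, 0 ≤ b + p * (v i).1 + q * (v i).2 ∧
      b + p * (v i).1 + q * (v i).2 ≤ 1 := by
    intro i
    rw [← hbpq (v i) (v_mem i)]
    have h := ho.1 ⟨v i, v_mem i⟩
    rw [← ext0_eq o ⟨v i, v_mem i⟩] at h
    exact h
  set z1 : ℝ := (2 * p - q) / 3 with hz1
  set z2 : ℝ := (2 * q - p) / 3 with hz2
  set z3 : ℝ := -(p + q) / 3 with hz3
  set r : ℝ := min b (1 - b) with hr
  obtain ⟨t, ht1, ht2, ht3, ht4, ht5, ht6, ht7, ht8⟩ : ∃ t : ℝ,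
      10 * z1 - r ≤ t ∧ t ≤ 10 * z1 + r ∧ 10 * z2 - r ≤ t ∧ t ≤ 10 * z2 + r ∧
      10 * z3 - r ≤ t ∧ t ≤ 10 * z3 + r ∧ -r ≤ 9 * t ∧ 9 * t ≤ r := by
    have h0 := hval 0
    have h1 := hval 1
    have h2 := hval 2
    have h3 := hval 3
    have h4 := hval 4
    have h5 := hval 5
    have h6 := hval 6
    have h7 := hval 7
    have h8 := hval 8
    have h9 := hval 9
    have h10 := hval 10
    have h11 := hval 11
    simp [v] at h0 h1 h2 h3 h4 h5 h6 h7 h8 h9 h10 h11
    refine ⟨max (max (10 * z1 - r) (10 * z2 - r)) (max (10 * z3 - r) (-r / 9)), ?_, ?_, ?_, ?_,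
      ?_, ?_, ?_, ?_⟩
    · exact (le_max_left _ _).trans (le_max_left _ _)
    · rcases min_cases b (1 - b) with h | h <;>
      (refine max_le (max_le ?_ ?_) (max_le ?_ ?_) <;> linarith)
    · exact (le_max_right _ _).trans (le_max_left _ _)
    · rcases min_cases b (1 - b) with h | h <;>
      (refine max_le (max_le ?_ ?_) (max_le ?_ ?_) <;> linarith)
    · exact (le_max_left _ _).trans (le_max_right _ _)
    · rcases min_cases b (1 - b) with h | h <;>
      (refine max_le (max_le ?_ ?_) (max_le ?_ ?_) <;> linarith)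
    · have h := (le_max_right (10 * z3 - r) (-r / 9)).trans
        (le_max_right (max (10 * z1 - r) (10 * z2 - r)) _)
      linarith
    · have h : max (max (10 * z1 - r) (10 * z2 - r)) (max (10 * z3 - r) (-r / 9)) ≤ r / 9 := by
        rcases min_cases b (1 - b) with h | h <;>
        (refine max_le (max_le ?_ ?_) (max_le ?_ ?_) <;> linarith)
      linarith
  have hrb : r ≤ b := min_le_left _ _
  have hrb' : r ≤ 1 - b := min_le_right _ _
  -- the coefficients of `e`
  let E : Fin 8 → ℝ := ![b + (10 * z1 - t), b + (10 * z2 - t), b + (10 * z3 - t), b + 9 * t,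
    b - (10 * z1 - t), b - (10 * z2 - t), b - (10 * z3 - t), b - 9 * t]
  have hE : ∀ k, 0 ≤ E k ∧ E k ≤ 1 := by
    intro k
    fin_cases k <;> (simp [E]; constructor <;> linarith)
  refine ⟨fun a => ∑ k, (a : Fin 8 → ℝ) k * E k, ⟨?_, ?_⟩, ?_⟩
  · intro a
    have ha : (∀ k, 0 ≤ (a : Fin 8 → ℝ) k) ∧ ∑ k, (a : Fin 8 → ℝ) k = 1 := a.2
    constructor
    · exact Finset.sum_nonneg fun k _ => mul_nonneg (ha.1 k) (hE k).1
    · rw [← ha.2]
      refine Finset.sum_le_sum fun k _ => ?_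
      exact mul_le_of_le_one_right (ha.1 k) (hE k).2
  · intro a b c l h0 h1 hc
    simp only [hc, Pi.add_apply, Pi.smul_apply, smul_eq_mul]
    rw [Finset.mul_sum, Finset.mul_sum, ← Finset.sum_add_distrib]
    refine Finset.sum_congr rfl fun k _ => ?_
    ring
  · intro a c ha hac
    have hc : ext0 o c = o c := ext0_eq o c
    rw [← hc, hbpq c c.2, ← hac]
    have hconv : Convex ℝ {x : Fin 8 → ℝ | b + p * (f x).1 + q * (f x).2 = ∑ k, x k * E k} := by
      intro x hx y hy s t hs ht hst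
      simp only [Set.mem_ofPred_eq] at hx hy ⊢
      rw [f_comb]
      have e1 : ∑ k, (s • x + t • y) k * E k = s * ∑ k, x k * E k + t * ∑ k, y k * E k := by
        rw [Finset.mul_sum, Finset.mul_sum, ← Finset.sum_add_distrib]
        refine Finset.sum_congr rfl fun k _ => ?_
        simp only [Pi.add_apply, Pi.smul_apply, smul_eq_mul]
        ring
      rw [e1, ← hx, ← hy]
      have hb1 : b = (s + t) * b := by rw [hst, one_mul]
      simp only [Prod.fst_add, Prod.smul_fst, smul_eq_mul, Prod.snd_add, Prod.smul_snd]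
      linear_combination hb1
    have hsub : Df ⊆ {x : Fin 8 → ℝ | b + p * (f x).1 + q * (f x).2 = ∑ k, x k * E k} := by
      refine convexHull_min ?_ hconv
      rintro _ ⟨i, rfl⟩
      simp only [Set.mem_ofPred_eq]
      rw [f_A]
      fin_cases i <;> (simp [v, A, E, Fin.sum_univ_succ, hz1, hz2, hz3]; try ring)
    exact hsub ha

/-- A section of `f` over `C`. -/
theorem exists_section (c : C) : ∃ a : T, (a : Fin 8 → ℝ) ∈ Df ∧ f a = c := by
  have hc : (c : ℝ × ℝ) ∈ f '' Df := by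
    rw [f_image]
    exact c.2
  obtain ⟨a, ha, hac⟩ := hc
  exact ⟨⟨a, Df_sub ha⟩, ha, hac⟩

/-- A chosen section of `f` over `C`. -/
noncomputable def sec (c : C) : T := Classical.choose (exists_section c)

theorem sec_mem (c : C) : (sec c : Fin 8 → ℝ) ∈ Df := (Classical.choose_spec (exists_section c)).1

theorem f_sec (c : C) : f (sec c) = c := (Classical.choose_spec (exists_section c)).2

/-- The map `g`. -/
noncomputable def g (e : T → ℝ) (c : C) : ℝ := e (sec c)

/-- The domain of `g`. -/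
def Dg : Set (T → ℝ) :=
  {e | e ∈ Omega T ∧ ∃ o ∈ Omega C, ∀ (a : T) (c : C), (a : Fin 8 → ℝ) ∈ Df → f a = c → o c = e a}

theorem g_eq (e : T → ℝ) (o : C → ℝ)
    (h : ∀ (a : T) (c : C), (a : Fin 8 → ℝ) ∈ Df → f a = c → o c = e a) : g e = o := by
  funext c
  exact (h (sec c) c (sec_mem c) (f_sec c)).symm

theorem Omega_comb [AddCommGroup E] [Module ℝ E] (K : Set E) (x y : K → ℝ) (hx : x ∈ Omega K)
    (hy : y ∈ Omega K) (s t : ℝ) (hs : 0 ≤ s) (ht : 0 ≤ t) (hst : s + t = 1) :
    s • x + t • y ∈ Omega K := by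
  obtain ⟨x1, x2⟩ := hx
  obtain ⟨y1, y2⟩ := hy
  refine ⟨fun a => ?_, fun a b c l h0 h1 hc => ?_⟩
  · simp only [Pi.add_apply, Pi.smul_apply, smul_eq_mul]
    have h1 := mul_nonneg hs (x1 a).1
    have h2 := mul_nonneg ht (y1 a).1
    have h3 := mul_le_of_le_one_right hs (x1 a).2
    have h4 := mul_le_of_le_one_right ht (y1 a).2
    constructor <;> linarith
  · simp only [Pi.add_apply, Pi.smul_apply, smul_eq_mul]
    rw [x2 a b c l h0 h1 hc, y2 a b c l h0 h1 hc]
    ring

theorem Dg_convex : Convex ℝ Dg := by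
  rintro x ⟨hx, ox, hox, hx2⟩ y ⟨hy, oy, hoy, hy2⟩ s t hs ht hst
  refine ⟨Omega_comb T x y hx hy s t hs ht hst, s • ox + t • oy,
    Omega_comb C ox oy hox hoy s t hs ht hst, ?_⟩
  intro a c ha hac
  simp only [Pi.add_apply, Pi.smul_apply, smul_eq_mul]
  rw [hx2 a c ha hac, hy2 a c ha hac]

theorem g_image : g '' Dg = Omega C := by
  apply Subset.antisymm
  · rintro _ ⟨e, ⟨_, o, ho, h⟩, rfl⟩
    rw [g_eq e o h]
    exact ho
  · intro o ho
    obtain ⟨e, he, h⟩ := exists_lift o ho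
    exact ⟨e, ⟨he, o, ho, h⟩, g_eq e o h⟩

/-- **A simplicial refinement with fewer vertices than the model.** There are a polygon `C` in the
plane with exactly `12` vertices (so that `(C, Ω C)` is a non-simplicial statistical model) and a
simplicial refinement `(T, Ω T, f, g)` of `(C, Ω C)` in which the simplex `T` has exactly `8`
vertices. -/
theorem result :
    ∃ (C : Set (ℝ × ℝ)) (T : Set (Fin 8 → ℝ)) (Df : Set (Fin 8 → ℝ)) (f : (Fin 8 → ℝ) → ℝ × ℝ)
      (Dg : Set (T → ℝ)) (g : (T → ℝ) → (C → ℝ)),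
      IsPolytope C ∧ ¬ IsSimplex C ∧ IsSimplicialRefinement C T Df f Dg g ∧
        (C.extremePoints ℝ).ncard = 12 ∧ (T.extremePoints ℝ).ncard = 8 := by
  refine ⟨C, T, Df, f, Dg, g, C_polytope, C_not_simplex, ?_, C_ncard, T_ncard⟩
  refine ⟨T_simplex, ⟨Df_sub, convex_convexHull ℝ _, f_image, ?_⟩,
    ⟨fun e he => he.1, Dg_convex, g_image, ?_⟩, ?_⟩
  · intro a _ b _ l _ _
    exact f_comb a b l (1 - l)
  · intro a _ b _ l _ _
    funext c
    simp [g]
  · rintro a c ha hac e ⟨_, o, _, h⟩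
    rw [g_eq e o h]
    exact h a c ha hac

end Pool.Agent.Results.MP_902647_gt.FewerVertices
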