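import Mathlib
import Pool.Agent.Lib.MP_902647_gt.Refine
import Pool.Agent.Lib.MP_902647_gt.LogPoly
import Pool.Agent.Lib.MP_902647_gt.Lower

set_option autoImplicit false

open Set

/-!
# MP_902647_gt: polygons with m vertices and a simplicial refinement with O(log m) vertices

`IsPolytope`, `IsSimplex`, `Omega`, `IsPartialOntoAffine` and `IsSimplicialRefinement` are defined in
`Pool.Agent.Lib.MP_902647_gt.Refine`, literally as in the problem file.
-/

namespace Pool.Agent.Results.MP_902647_gt.LogVertices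

open Pool.Agent.Lib.MP_902647_gt

/-- `HasRefinement C N`: the polygon `C` has a simplicial refinement `(T, Ω T, f, g)` in which the
simplex `T` is a subset of `ℝ^N` and has exactly `N` extreme points. -/
def HasRefinement (C : Set (ℝ × ℝ)) (N : ℕ) : Prop :=
  ∃ (T : Set (Fin N → ℝ)) (Df : Set (Fin N → ℝ)) (f : (Fin N → ℝ) → ℝ × ℝ) (Dg : Set (T → ℝ))
    (g : (T → ℝ) → (C → ℝ)), IsSimplicialRefinement C T Df f Dg g ∧
      (T.extremePoints ℝ).ncard = N

theorem exists_polygon_m (m : ℕ) (hm : 4 ≤ m) :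
    ∃ C : Set (ℝ × ℝ), IsPolytope C ∧ ¬ IsSimplex C ∧ (C.extremePoints ℝ).ncard = m ∧
      HasRefinement C (2 * Nat.clog 2 (m - 2) + 3) := by
  obtain ⟨C, Df, f, Dg, g, h1, h2, h3⟩ := exists_polygon (m - 2) (by omega)
  have h4 : (C.extremePoints ℝ).ncard = m := by rw [h2]; omega
  exact ⟨C, h1, not_isSimplex_of_four (by rw [h4]; exact hm), h4, stdSimplex ℝ _, Df, f, Dg, g, h3,
    stdSimplex_ncard _⟩

theorem clog_eight : 2 * Nat.clog 2 (10 - 2) + 3 = 9 := by
  have h : Nat.clog 2 (2 ^ 3) = 3 := Nat.clog_pow 2 3 (by norm_num)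
  have h2 : (10 - 2 : ℕ) = 2 ^ 3 := by norm_num
  rw [h2, h]

theorem result :
    -- the negated form of Q1: a polygon with 10 vertices and a refinement with 9 vertices
    (∃ C : Set (ℝ × ℝ), IsPolytope C ∧ ¬ IsSimplex C ∧ (C.extremePoints ℝ).ncard = 10 ∧
      HasRefinement C 9) ∧
    -- for every `m ≥ 4` a polygon with `m` vertices and a refinement with
    -- `2 ⌈log₂ (m - 2)⌉ + 3` vertices
    (∀ m : ℕ, 4 ≤ m → ∃ C : Set (ℝ × ℝ), IsPolytope C ∧ ¬ IsSimplex C ∧
      (C.extremePoints ℝ).ncard = m ∧ HasRefinement C (2 * Nat.clog 2 (m - 2) + 3)) ∧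
    -- every refinement of every polytope with `m` vertices has `N` vertices with
    -- `m ≤ binom(N, ⌊N/2⌋)`
    (∀ (E F : Type) [NormedAddCommGroup E] [NormedSpace ℝ E] [AddCommGroup F] [Module ℝ F]
      (C : Set E) (T : Set F) (Df : Set F) (f : F → E) (Dg : Set (T → ℝ))
      (g : (T → ℝ) → (C → ℝ)), IsPolytope C → IsSimplicialRefinement C T Df f Dg g →
      (C.extremePoints ℝ).ncard ≤
        ((T.extremePoints ℝ).ncard).choose ((T.extremePoints ℝ).ncard / 2)) := by
  refine ⟨?_, exists_polygon_m, ?_⟩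
  · have h := exists_polygon_m 10 (by norm_num)
    rw [clog_eight] at h
    exact h
  · intro E F _ _ _ _ C T Df f Dg g hC h
    exact lower_bound hC h

end Pool.Agent.Results.MP_902647_gt.LogVertices
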